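import Mathlib

set_option autoImplicit false

open Filter Topology

namespace Pool.Agent.Q108.KD

theorem le_of_eps {a b g : ℝ} (hb : 0 < b) (hg : 1 < g)
    (h : ∀ ε : ℝ, 0 < ε → a ≤ b * g ^ ε) : a ≤ b := by
  have h3 : Tendsto (fun ε : ℝ => b * g ^ ε) (𝓝 0) (𝓝 (b * g ^ (0 : ℝ))) := by
    apply Tendsto.const_mul
    exact (Real.continuousAt_const_rpow (by positivity)).tendsto
  rw [Real.rpow_zero, mul_one] at h3
  apply ge_of_tendsto (h3.mono_left nhdsWithin_le_nhds : Tendsto _ (𝓝[>] (0 : ℝ)) _)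
  filter_upwards [self_mem_nhdsWithin] with ε hε
  exact h ε hε

/-- a loss which is a small power of the size, for arbitrarily large sizes -/
theorem ampG {a b g θ : ℝ} (ha : 0 ≤ a) (hb : 1 ≤ b) (hg : 1 ≤ g)
    (h : ∀ ε : ℝ, 0 < ε → ∃ᶠ x : ℝ in atTop, ∀ N : ℕ, g ^ N ≤ x → a ^ N ≤ (b ^ N) ^ θ * x ^ ε) :
    a ≤ b ^ θ := by
  have hb0 : 0 < b ^ θ := Real.rpow_pos_of_pos (by linarith) _
  set G : ℝ := g + 1 with hG
  have hG1 : 1 < G := by linarith
  have hgG : g ≤ G := by linarith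
  apply le_of_eps hb0 hG1
  intro ε hε
  by_contra hcon
  push Not at hcon
  have hpos : 0 < b ^ θ * G ^ ε := by positivity
  have hq : 1 < a / (b ^ θ * G ^ ε) := (one_lt_div hpos).2 hcon
  obtain ⟨N0, hN0⟩ := pow_unbounded_of_one_lt (G ^ ε) hq
  obtain ⟨x, hx, hx2⟩ := ((h ε hε).and_eventually (eventually_ge_atTop (G ^ N0))).exists
  have hx1 : 1 ≤ x := (one_le_pow₀ hG1.le).trans hx2
  obtain ⟨N, hN1, hN2⟩ := exists_nat_pow_near hx1 hG1
  have hNN : N0 ≤ N := by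
    by_contra hc
    push Not at hc
    have : G ^ (N + 1) ≤ G ^ N0 := pow_le_pow_right₀ hG1.le hc
    linarith
  have h1 := hx N ((pow_le_pow_left₀ (by linarith) hgG N).trans hN1)
  have h2 : x ^ ε ≤ (G ^ ε) ^ N * G ^ ε := by
    calc x ^ ε ≤ (G ^ (N + 1)) ^ ε := Real.rpow_le_rpow (by linarith) hN2.le hε.le
      _ = (G ^ ε) ^ (N + 1) := by
          rw [← Real.rpow_natCast G, ← Real.rpow_natCast (G ^ ε), ← Real.rpow_mul (by linarith),
            ← Real.rpow_mul (by linarith), mul_comm]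
      _ = (G ^ ε) ^ N * G ^ ε := pow_succ _ _
  have h3 : (b ^ N) ^ θ = (b ^ θ) ^ N := by
    rw [← Real.rpow_natCast b, ← Real.rpow_natCast (b ^ θ), ← Real.rpow_mul (by linarith),
      ← Real.rpow_mul (by linarith), mul_comm]
  rw [h3] at h1
  have h4 : (a / (b ^ θ * G ^ ε)) ^ N ≤ G ^ ε := by
    rw [div_pow, div_le_iff₀ (pow_pos hpos N), mul_pow]
    calc a ^ N ≤ (b ^ θ) ^ N * x ^ ε := h1
      _ ≤ (b ^ θ) ^ N * ((G ^ ε) ^ N * G ^ ε) := mul_le_mul_of_nonneg_left h2 (by positivity)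
      _ = G ^ ε * ((b ^ θ) ^ N * (G ^ ε) ^ N) := by ring
  have h5 : (a / (b ^ θ * G ^ ε)) ^ N0 ≤ (a / (b ^ θ * G ^ ε)) ^ N := pow_le_pow_right₀ hq.le hNN
  linarith

/-- the same for the size `b ^ N` -/
theorem ampD {a b θ : ℝ} (ha : 0 ≤ a) (hb : 1 ≤ b) (hθ : 0 ≤ θ)
    (h : ∀ ε : ℝ, 0 < ε → ∃ᶠ x : ℝ in atTop, ∀ N : ℕ, b ^ N ≤ x → a ^ N ≤ x ^ (θ + ε)) :
    a ≤ b ^ θ := by
  rcases hb.eq_or_lt with hb1 | hb1
  · rw [← hb1, Real.one_rpow]
    by_contra hcon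
    push Not at hcon
    obtain ⟨x, hx, hx1⟩ := ((h 1 one_pos).and_eventually (eventually_ge_atTop 1)).exists
    obtain ⟨N, hN⟩ := pow_unbounded_of_one_lt (x ^ (θ + 1)) hcon
    have := hx N (by rw [← hb1, one_pow]; exact hx1)
    linarith
  · have hb0 : 0 < b ^ θ := Real.rpow_pos_of_pos (by linarith) _
    apply le_of_eps hb0 hb1
    intro ε hε
    rw [← Real.rpow_add (by linarith)]
    by_contra hcon
    push Not at hcon
    have hpos : 0 < b ^ (θ + ε) := Real.rpow_pos_of_pos (by linarith) _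
    have hq : 1 < a / b ^ (θ + ε) := (one_lt_div hpos).2 hcon
    obtain ⟨N0, hN0⟩ := pow_unbounded_of_one_lt (b ^ (θ + ε)) hq
    obtain ⟨x, hx, hx2⟩ := ((h ε hε).and_eventually (eventually_ge_atTop (b ^ N0))).exists
    have hx1 : 1 ≤ x := (one_le_pow₀ hb).trans hx2
    obtain ⟨N, hN1, hN2⟩ := exists_nat_pow_near hx1 hb1
    have hNN : N0 ≤ N := by
      by_contra hc
      push Not at hc
      have : b ^ (N + 1) ≤ b ^ N0 := pow_le_pow_right₀ hb hc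
      linarith
    have h1 := hx N hN1
    have h2 : x ^ (θ + ε) ≤ (b ^ (θ + ε)) ^ N * b ^ (θ + ε) := by
      calc x ^ (θ + ε) ≤ (b ^ (N + 1)) ^ (θ + ε) :=
            Real.rpow_le_rpow (by linarith) hN2.le (by linarith)
        _ = (b ^ (θ + ε)) ^ (N + 1) := by
            rw [← Real.rpow_natCast b, ← Real.rpow_natCast (b ^ (θ + ε)),
              ← Real.rpow_mul (by linarith), ← Real.rpow_mul (by linarith), mul_comm]
        _ = (b ^ (θ + ε)) ^ N * b ^ (θ + ε) := pow_succ _ _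
    have h4 : (a / b ^ (θ + ε)) ^ N ≤ b ^ (θ + ε) := by
      rw [div_pow, div_le_iff₀ (pow_pos hpos N)]
      linarith
    have h5 : (a / b ^ (θ + ε)) ^ N0 ≤ (a / b ^ (θ + ε)) ^ N := pow_le_pow_right₀ hq.le hNN
    linarith

end Pool.Agent.Q108.KD
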