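import Pool.Agent.Q288.KB.Fin

set_option autoImplicit false

open Finset MonoidAlgebra Function

namespace Pool.Agent.Q108.KD

open Pool.Agent.Q288.KB

variable {k : Type} [Field k]

/-- a class of groups closed under isomorphisms and finite direct powers -/
structure ClosedD (R : ∀ (D : Type) [Group D], Prop) : Prop where
  iso : ∀ (D E : Type) [Group D] [Group E], Nonempty (D ≃* E) → R D → R E
  pow : ∀ (D : Type) [Group D] (ι : Type) [Finite ι], R D → R (ι → D)

/-- the element is a relative trace from a subgroup in the class -/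
def Tr (R : ∀ (D : Type) [Group D], Prop) {G : Type} [Group G] (e : MonoidAlgebra k G) : Prop :=
  ∃ D : Subgroup G, IsTrace D e ∧ R D

def piIso {G ι : Type} [Group G] (D : Subgroup G) :
    (ι → D) ≃* Subgroup.pi (Set.univ : Set ι) (fun _ => D) where
  toFun y := ⟨fun i => (y i).1, fun i _ => (y i).2⟩
  invFun x := fun i => ⟨x.1 i, x.2 i (Set.mem_univ i)⟩
  left_inv y := rfl
  right_inv x := rfl
  map_mul' a b := rfl

theorem R_pi {R : ∀ (D : Type) [Group D], Prop} (hR : ClosedD R) {G : Type} [Group G]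
    {D : Subgroup G} (h : R D) (ι : Type) [Finite ι] :
    R (Subgroup.pi (Set.univ : Set ι) (fun _ => D)) :=
  hR.iso _ _ ⟨piIso D⟩ (hR.pow D ι h)

theorem Tr.pow {R : ∀ (D : Type) [Group D], Prop} (hR : ClosedD R) {G : Type} [Group G] [Finite G]
    {e : MonoidAlgebra k G} (h : Tr R e) (m : ℕ) : Tr R (T (fun _ : Fin m => e)) := by
  obtain ⟨D, h1, h2⟩ := h
  exact ⟨_, T_trace (fun _ : Fin m => h1), R_pi hR h2 (Fin m)⟩

theorem Tr.wreath {R : ∀ (D : Type) [Group D], Prop} (hR : ClosedD R) {G : Type} [Group G] [Finite G]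
    {Q : Type} [CommGroup Q] [Fintype Q] {c : Q → MonoidAlgebra k G} {D : Subgroup G}
    (h : ∀ x, IsTrace D (c x)) (hD : R D) : Tr R (W c) := by
  refine ⟨_, Sys.E_trace (T_trace h), ?_⟩
  exact hR.iso _ _ ⟨Subgroup.equivMapOfInjective _ _ (wsys G Q).hj⟩ (R_pi hR hD Q)

theorem step_fr [IsAlgClosed k] (p : ℕ) [Fact p.Prime] [CharP k p] [PerfectRing k p]
    {P : ∀ (G : Type) [Group G], Prop} (hP : Closed P) {R : ∀ (D : Type) [Group D], Prop}
    (hR : ClosedD R)
    {G : Type} [Group G] [Finite G] (hG : P G) {e : MonoidAlgebra k G} {d n : ℕ} (h : Dat e d n)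
    (ht : Tr R e) :
    ∃ (G' : Type) (_ : Group G') (_ : Finite G') (e' : MonoidAlgebra k G') (m : ℕ), P G' ∧ 0 < m ∧
      Dat e' (d ^ m) (n ^ m) ∧ Tr R e' ∧ (frS p G').ψ e' = e' := by
  classical
  set F : MonoidAlgebra k G → MonoidAlgebra k G := fun x => (frS p G).ψ x with hF
  have hfin := finite_blocks k G
  let F' : {e : MonoidAlgebra k G // IsBlock e} → {e : MonoidAlgebra k G // IsBlock e} :=
    fun x => ⟨F x.1, (frS p G).block x.2⟩
  have hF'inj : Function.Injective F' := by
    intro x y hxy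
    apply Subtype.ext
    exact (frS p G).ψ.injective (congrArg Subtype.val hxy)
  have hper : (⟨e, h.1⟩ : {e : MonoidAlgebra k G // IsBlock e}) ∈ periodicPts F' :=
    hF'inj.mem_periodicPts _
  have hiter : ∀ (m : ℕ) (x : {e : MonoidAlgebra k G // IsBlock e}), ((F'^[m]) x).1 = F^[m] x.1 := by
    intro m
    induction m with
    | zero => intro x; rfl
    | succ m ih =>
      intro x
      rw [iterate_succ_apply, iterate_succ_apply, ih]
  obtain ⟨m, hm, hm2⟩ := hper
  have hper2 : e ∈ periodicPts F := by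
    refine ⟨m, hm, ?_⟩
    have h1 := congrArg Subtype.val hm2
    rw [hiter] at h1
    exact h1
  have hr : 0 < minimalPeriod F e := minimalPeriod_pos_iff_mem_periodicPts.2 hper2
  set r := minimalPeriod F e with hrdef
  have : NeZero r := ⟨hr.ne'⟩
  let c : Multiplicative (ZMod r) → MonoidAlgebra k G := fun x => F^[(Multiplicative.toAdd x).val] e
  have hcinj : Function.Injective c := by
    intro x y hxy
    have h1 := (iterate_injOn_Iio_minimalPeriod (f := F) (x := e))
      (show (Multiplicative.toAdd x).val ∈ Set.Iio r from ZMod.val_lt _)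
      (show (Multiplicative.toAdd y).val ∈ Set.Iio r from ZMod.val_lt _) hxy
    exact Multiplicative.toAdd.injective (ZMod.val_injective r h1)
  have hc : ∀ x, Dat (c x) d n := by
    intro x
    show Dat (F^[(Multiplicative.toAdd x).val] e) d n
    generalize (Multiplicative.toAdd x).val = a
    induction a with
    | zero => exact h
    | succ a ih =>
      rw [iterate_succ_apply']
      exact ih.sy _
  obtain ⟨D, hD1, hD2⟩ := ht
  have hcD : ∀ x, IsTrace D (c x) := by
    intro x
    show IsTrace D (F^[(Multiplicative.toAdd x).val] e)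
    generalize (Multiplicative.toAdd x).val = a
    induction a with
    | zero => exact hD1
    | succ a ih =>
      rw [iterate_succ_apply']
      exact (frS p G).trace ih
  have hshift : ∀ x, F (c x) = c (Multiplicative.ofAdd 1 * x) := by
    intro x
    show F (F^[(Multiplicative.toAdd x).val] e) = F^[(1 + Multiplicative.toAdd x).val] e
    have h1 : (1 + Multiplicative.toAdd x : ZMod r).val = (Multiplicative.toAdd x).val.succ % r := by
      rw [ZMod.val_add, ZMod.val_one_eq_one_mod, Nat.mod_add_mod, Nat.succ_eq_add_one, add_comm]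
    rw [h1, iterate_mod_minimalPeriod_eq, iterate_succ_apply']
  refine ⟨RegularWreathProduct G (Multiplicative (ZMod r)), inferInstance, inferInstance, W c,
    Fintype.card (Multiplicative (ZMod r)), hP.wreath G r hr hG, Fintype.card_pos, Dat.wreath hcinj hc,
    Tr.wreath hR hcD hD2, ?_⟩
  rw [fr_W]
  have h1 : (fun x => (frS p G).ψ (c x)) = fun x => c (Multiplicative.ofAdd 1 * x) := funext hshift
  rw [h1, W_shift]

theorem step_iv [IsAlgClosed k] (p : ℕ) [Fact p.Prime] [CharP k p] [PerfectRing k p]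
    {P : ∀ (G : Type) [Group G], Prop} (hP : Closed P) {R : ∀ (D : Type) [Group D], Prop}
    (hR : ClosedD R)
    {G : Type} [Group G] [Finite G] (hG : P G) {e : MonoidAlgebra k G} {d n : ℕ} (h : Dat e d n)
    (ht : Tr R e) (hfr : (frS p G).ψ e = e) :
    ∃ (G' : Type) (_ : Group G') (_ : Finite G') (e' : MonoidAlgebra k G') (m : ℕ), P G' ∧ 0 < m ∧
      Dat e' (d ^ m) (n ^ m) ∧ Tr R e' ∧ (frS p G').ψ e' = e' ∧ ivS.ψ e' = e' := by
  classical
  by_cases hiv : ivS.ψ e = e
  · exact ⟨G, inferInstance, inferInstance, e, 1, hG, one_pos, by simpa using h, ht, hfr, hiv⟩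
  · let c : Multiplicative (ZMod 2) → MonoidAlgebra k G := fun x => if x = 1 then e else ivS.ψ e
    have h2 : ∀ x : Multiplicative (ZMod 2), x = 1 ∨ x = Multiplicative.ofAdd 1 := by decide
    have hne : (Multiplicative.ofAdd 1 : Multiplicative (ZMod 2)) ≠ 1 := by decide
    have hmm : (Multiplicative.ofAdd 1 : Multiplicative (ZMod 2)) * Multiplicative.ofAdd 1 = 1 := by decide
    have hcinj : Function.Injective c := by
      intro x y hxy
      rcases h2 x with rfl | rfl <;> rcases h2 y with rfl | rfl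
      · rfl
      · exfalso
        apply hiv
        simp only [c, if_true, if_neg hne] at hxy
        exact hxy.symm
      · exfalso
        apply hiv
        simp only [c, if_true, if_neg hne] at hxy
        exact hxy
      · rfl
    have hc : ∀ x, Dat (c x) d n := by
      intro x
      show Dat (if x = 1 then e else ivS.ψ e) d n
      split_ifs
      · exact h
      · exact h.sy _
    obtain ⟨D, hD1, hD2⟩ := ht
    have hcD : ∀ x, IsTrace D (c x) := by
      intro x
      show IsTrace D (if x = 1 then e else ivS.ψ e)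
      split_ifs
      · exact hD1
      · exact ivS.trace hD1
    refine ⟨RegularWreathProduct G (Multiplicative (ZMod 2)), inferInstance, inferInstance, W c,
      Fintype.card (Multiplicative (ZMod 2)), hP.wreath G 2 two_pos hG, Fintype.card_pos,
      Dat.wreath hcinj hc, Tr.wreath hR hcD hD2, ?_, ?_⟩
    · rw [fr_W]
      congr 1
      funext x
      show (frS p G).ψ (if x = 1 then e else ivS.ψ e) = if x = 1 then e else ivS.ψ e
      split_ifs
      · exact hfr
      · rw [fr_iv, hfr]
    · rw [iv_W]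
      have h1 : (fun x => ivS.ψ (c x)) = fun x => c (Multiplicative.ofAdd 1 * x) := by
        funext x
        rcases h2 x with rfl | rfl
        · simp only [c, if_true, mul_one, if_neg hne]
        · simp only [c, if_true, hmm, if_neg hne, iv_iv]
      rw [h1, W_shift]

/-- the reduction to the nice blocks -/
theorem reduce [IsAlgClosed k] (p : ℕ) [Fact p.Prime] [CharP k p] [PerfectRing k p]
    {P : ∀ (G : Type) [Group G], Prop} (hP : Closed P) {R : ∀ (D : Type) [Group D], Prop}
    (hR : ClosedD R)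
    {G : Type} [Group G] [Finite G] (hG : P G) {e : MonoidAlgebra k G} (he : IsBlock e)
    (ht : Tr R e) :
    ∃ m : ℕ, 0 < m ∧ ∃ g : ℕ, 0 < g ∧
      ∀ N : ℕ, ∃ (G' : Type) (_ : Group G') (_ : Finite G') (e' : MonoidAlgebra k G'),
      P G' ∧ IsBlock e' ∧ Tr R e' ∧ (∀ g, e'.coeff g ^ p = e'.coeff g) ∧
      (∀ g, e'.coeff g⁻¹ = e'.coeff g) ∧ Nat.card G' = g ^ N ∧
      numChar e ^ (m * N) ≤ numChar e' ∧ defectOrder e' ≤ defectOrder e ^ (m * N) := by
  obtain ⟨G₁, _, _, e₁, m₁, hP₁, hm₁, hd₁, ht₁, hf₁⟩ := step_fr p hP hR hG (dat_self he) ht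
  obtain ⟨G₂, _, _, e₂, m₂, hP₂, hm₂, hd₂, ht₂, hf₂, hi₂⟩ := step_iv p hP hR hP₁ hd₁ ht₁ hf₁
  refine ⟨m₁ * m₂, Nat.mul_pos hm₁ hm₂, Nat.card G₂, Nat.card_pos, fun N => ⟨Fin N → G₂, inferInstance,
    inferInstance, T (fun _ => e₂), hP.pow G₂ N hP₂, T_block fun _ => hd₂.1, ht₂.pow hR N,
    ?_, ?_, ?_, ?_, ?_⟩⟩
  · intro g
    rw [← fr_coeff, fr_T]
    simp only [hf₂]
  · intro g
    rw [← iv_coeff, iv_T]
    simp only [hi₂]
  · rw [Nat.card_pi, Finset.prod_const, Finset.card_univ, Fintype.card_fin]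
  · have := (hd₂.pow N).le_numChar
    rwa [← pow_mul, ← pow_mul, ← mul_assoc] at this
  · have := (hd₂.pow N).defect_le
    rwa [← pow_mul, ← pow_mul, ← mul_assoc] at this

end Pool.Agent.Q108.KD
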